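import Pool.Agent.Q176.HX.LPXB

/-!
# Project HX, job LPX: the integral to all orders

After `Pool/Agent/Q99/HU/Q239/LPN.lean` of helper239.
-/

set_option autoImplicit false

namespace Pool.Agent.Q176.HX

open Finset Filter Topology MeasureTheory
open Pool.Agent.Q99.HT
open Pool.Agent.Q99.HU (S_MXNb S_BXNb)
open Pool.Agent.Q99.HU.Q239
open Pool.Agent.Q99.KN (bb ct St LC S_LC S_GAM ez kz th jN)
open Pool.Agent.Q251.KN (fz Eg eg_norm eg_tendsto)
open Pool.Agent.Q99.HX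

variable {c d : ℕ}

theorem pos_le_all {ι : Type} [Finite ι] (f : ι → ℝ) (h : ∀ i, 0 < f i) :
    ∃ y : ℝ, 0 < y ∧ ∀ i, y ≤ f i := by
  by_cases hne : Nonempty ι
  · obtain ⟨i, hi⟩ := Finite.exists_min f
    exact ⟨f i, h i, hi⟩
  · exact ⟨1, one_pos, fun i => absurd ⟨i⟩ hne⟩

theorem gauss_int {ι : Type} [Fintype ι] {b : ℝ} (hb : 0 < b) :
    Integrable (fun x : ι → ℝ => Real.exp (-(b * ∑ i, x i ^ 2))) := by
  have h : Integrable (fun x : ι → ℝ => ∏ i, (fun _ (y : ℝ) => Real.exp (-b * y ^ 2)) i (x i)) :=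
    Integrable.fintype_prod (f := fun _ (y : ℝ) => Real.exp (-b * y ^ 2))
      (fun _ => integrable_exp_neg_mul_sq hb)
  refine h.congr (Eventually.of_forall fun x => ?_)
  simp only
  rw [← Real.exp_sum]
  congr 1
  rw [mul_sum, ← sum_neg_distrib]
  exact sum_congr rfl fun i _ => by ring

theorem xp_add_small {a b : ℕ → ℂ} {y : ℕ → ℂ} (ha : Xp a y)
    (hs : ∀ K : ℕ, ∃ C : ℝ, ∀ᶠ N : ℕ in atTop, ‖b N - a N‖ ≤ C / (N : ℝ) ^ K) : Xp b y := by
  intro K
  obtain ⟨C1, h1⟩ := ha K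
  obtain ⟨C2, h2⟩ := hs K
  refine ⟨C1 + C2, ?_⟩
  filter_upwards [h1, h2] with N g1 g2
  calc ‖b N - ∑ k ∈ range K, y k / (N : ℂ) ^ k‖
      = ‖(a N - ∑ k ∈ range K, y k / (N : ℂ) ^ k) + (b N - a N)‖ := by congr 1; ring
    _ ≤ _ := norm_add_le _ _
    _ ≤ C1 / (N : ℝ) ^ K + C2 / (N : ℝ) ^ K := add_le_add g1 g2
    _ = _ := by rw [add_div]

/-- a small box around the critical point -/
theorem box_sub {X : Nw c d} {r κ K C0 δ ρ η : ℝ} (hB : ∀ s, Blk (X.α s) r κ K C0)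
    (hρδ : ρ ≤ δ / 2) (hρr : ∀ s : Fin c, ρ ≤ r / 16) (hηδ : η ≤ δ / 4)
    (hηr : ∀ s : Fin c, η ≤ r / 16) {T : Fin d → ℂ} {J ζ : Fin c → ℂ} (hn : X.Nr ρ T J ζ)
    {N : ℕ} (hN1 : 1 ≤ N) (hNδ : 2 / (N : ℝ) ≤ δ / 8) (hNr : ∀ s : Fin c, 2 / (N : ℝ) ≤ r / 16)
    {v : X.Ix → ℝ} (hv : ∀ i, |v i| ≤ η) : v ∈ Sx X r δ N T J ζ := by
  obtain ⟨hT, hJ, hζ⟩ := hn
  have h0 : (0:ℝ) < N := by exact_mod_cast hN1
  have e2 : (1:ℝ) / (2 * N) ≤ 2 / N := by
    rw [div_le_div_iff₀ (by positivity) h0]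
    linarith
  refine ⟨fun j _ => ?_, fun s => ?_, fun s => ?_⟩
  · have h4 := abs_le.1 (hv (.inl j))
    have h3 := abs_lt.1 (re_lt (hT j))
    have h5 := (lo_bd hN1 (X.τ j - δ)).2
    have h6 := (hi_bd hN1 (X.τ j + δ)).1
    simp only [Pi.add_apply, pr, Set.mem_Icc]
    constructor <;> linarith [h4.1, h4.2, h3.1, h3.2]
  · have h4 := abs_le.1 (hv (.inr (.inl s)))
    have h3 := abs_lt.1 (re_lt (hJ s))
    have h5 := (lo_bd hN1 (X.α s 1 - r / 4)).2
    have h6 := (hi_bd hN1 (X.α s 1 + r / 4)).1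
    simp only [Pi.add_apply, pr, Set.mem_Icc]
    constructor <;> linarith [h4.1, h4.2, h3.1, h3.2, hNr s, hηr s, hρr s]
  · have h4 := abs_le.1 (hv (.inr (.inr s)))
    have hz : ‖ζ s - ((0:ℝ):ℂ)‖ < ρ := by simpa using hζ s
    have h3 := abs_lt.1 (re_lt hz)
    have h5 := (th_bd hN1 (hB s).r0 (by linarith [(hB s).r1])).1
    simp only [Pi.add_apply, pr, Set.mem_Icc]
    constructor <;> linarith [h4.1, h4.2, h3.1, h3.2, hNr s, hηr s, hρr s]

/-- **job LPX** -/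
theorem task_LPX : S_LPX := by
  intro hLC hGAM hFLAP hGX hUA hPX hMXN hBXN c d X hX r κ K C0 hB
  obtain ⟨δ0, hδ0, hδ0'⟩ := exists_delta (r := r) hX (fun s => (hB s).r0)
  refine ⟨δ0, hδ0, fun δ hδ hδle => ?_⟩
  have hδ' := hδ0' δ hδle
  obtain ⟨κ', hκ', hmx⟩ := hMXN c d X hX r κ K C0 hB
  obtain ⟨N0, τ2, hτ2, hbox⟩ := hBXN c d X hX r κ K C0 hB δ hδ hδ'
  set r1 : ℝ := if c = 0 then 1 else r with hr1
  have hr1s : ∀ s : Fin c, r1 = r := by
    intro s
    have : c ≠ 0 := by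
      rintro rfl
      exact s.elim0
    rw [hr1, if_neg this]
  have hr10 : 0 < r1 := by
    rw [hr1]
    split_ifs with h
    · exact one_pos
    · exact (hB ⟨0, Nat.pos_of_ne_zero h⟩).r0
  set ρ : ℝ := min (δ / 2) (min (r1 / 16) τ2) with hρ
  have hρ0 : 0 < ρ := lt_min (by linarith) (lt_min (by linarith) hτ2)
  have hρδ : ρ ≤ δ / 2 := min_le_left _ _
  have hρr : ∀ s : Fin c, ρ ≤ r / 16 := fun s => by
    have h1 : ρ ≤ r1 / 16 := (min_le_right _ _).trans (min_le_left _ _)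
    rwa [hr1s s] at h1
  have hρτ : ρ ≤ τ2 := (min_le_right _ _).trans (min_le_right _ _)
  refine ⟨ρ, hρ0, fun w T J ζ hcr hn hpos => ?_⟩
  have haj := hcr.aj
  have hrg2 : X.Rg (r / 2) T J ζ := by
    refine rg_of_near hB hδ' (fun j => ?_) (fun s => ?_) (fun s => ?_)
    · linarith [hn.1 j]
    · linarith [hn.2.1 s, hρr s, (hB s).r0]
    · linarith [hn.2.2 s, hρr s, (hB s).r0]
  have hrr : ∀ {T : Fin d → ℂ} {J ζ : Fin c → ℂ}, X.Rg (r / 2) T J ζ → X.Rg r T J ζ :=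
    fun h s => ⟨Metric.ball_subset_ball (by linarith [(hB s).r0]) (h s).1,
      (h s).2.trans (by linarith [(hB s).r0])⟩
  have hrg := hrr hrg2
  have h2N : Tendsto (fun N : ℕ => 1 / (2 * (N:ℝ))) atTop (𝓝 0) := by
    have h := tendsto_const_div_atTop_nhds_zero_nat (1 / 2 : ℝ)
    refine h.congr fun N => ?_
    rw [div_div]
  have h3N : Tendsto (fun N : ℕ => 2 / (N:ℝ)) atTop (𝓝 0) := tendsto_const_div_atTop_nhds_zero_nat 2
  have hev1 : ∀ᶠ N : ℕ in atTop, 1 / (2 * (N:ℝ)) ≤ δ / 2 := h2N.eventually_le_const (by linarith)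
  have hev2 : ∀ᶠ N : ℕ in atTop, ∀ s : Fin c, 1 / (2 * (N:ℝ)) ≤ r / 16 := by
    rw [eventually_all]
    intro s
    exact h2N.eventually_le_const (by linarith [(hB s).r0])
  have hev3 : ∀ᶠ N : ℕ in atTop, ∀ s, Real.exp (-(Real.pi * N * (ζ s).im)) ≤ 1 / 2 := by
    rw [eventually_all]
    intro s
    exact (eg_tendsto (hpos s)).eventually_le_const (by norm_num)
  have hev4 := ev_small hB
  have hev5 := eventually_ge_atTop (max 1 N0)
  have hev6 : ∀ᶠ N : ℕ in atTop, 2 / (N:ℝ) ≤ δ / 8 := h3N.eventually_le_const (by linarith)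
  have hev7 : ∀ᶠ N : ℕ in atTop, ∀ s : Fin c, 2 / (N:ℝ) ≤ r / 16 := by
    rw [eventually_all]
    intro s
    exact h3N.eventually_le_const (by linarith [(hB s).r0])
  have hmem : ∀ᶠ N : ℕ in atTop, ∀ v ∈ Sx X r δ N T J ζ,
      X.Rg (r / 2) (Tv X T v) (Jv X J v) (Zv X ζ v) := by
    filter_upwards [hev1, hev2, hev5] with N h1 h2 h3 v hv
    exact sx_mem hB hδ' hρδ hρr hn haj ((le_max_left _ _).trans h3) h1 h2 hv
  have hmx0 : ∀ v : X.Ix → ℝ, X.Rg (r / 2) (Tv X T v) (Jv X J v) (Zv X ζ v) →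
      (X.Ph w (Tv X T v) (Jv X J v) (Zv X ζ v)).re ≤ (X.Ph w T J ζ).re - κ' * ∑ i, v i ^ 2 := by
    intro v hv
    have h2 := hmx w T J ζ hcr hrg (fun j => v (.inl j)) (bv X v) (fun s => v (.inr (.inr s)))
      (fun s hs => bv_zero X v hs) (hrr hv)
    rw [bv_sum] at h2
    rw [Ix_sum X fun i => v i ^ 2, ← add_assoc]
    exact h2
  obtain ⟨B, hB0, hBd⟩ := Hs_bound hLC hX hB
  -- the bound of the integrand
  have hbnd : ∀ᶠ N : ℕ in atTop, ∀ u, ‖(Sx X r δ N T J ζ).indicator (Gf X N w T J ζ) u‖ ≤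
      B * Real.exp (-(κ' * N * ∑ i, u i ^ 2)) := by
    filter_upwards [hmem, hev3, hev4, hev5] with N h1 h3 h4 h5 u
    have hN1 : 1 ≤ N := (le_max_left _ _).trans h5
    by_cases hu : u ∈ Sx X r δ N T J ζ
    · rw [Set.indicator_of_mem hu]
      unfold Gf
      rw [norm_mul, Complex.norm_exp, mul_comm]
      refine mul_le_mul ?_ (Real.exp_le_exp.2 ?_) (Real.exp_pos _).le hB0
      · refine hBd N hN1 h4 _ _ _ (h1 u hu) (fun s hs => ?_) (fun s => ?_)
        · unfold Jv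
          rw [haj s hs, bv_zero X u hs]
          simp
        · rw [eg_norm]
          have : (Zv X ζ u s).im = (ζ s).im := by
            unfold Zv
            rw [Complex.add_im, Complex.ofReal_im, add_zero]
          rw [this]
          exact h3 s
      · have h6 := hmx0 u (h1 u hu)
        rw [← Complex.ofReal_natCast, Complex.re_ofReal_mul, Complex.sub_re]
        have h7 : (X.Ph w (Tv X T u) (Jv X J u) (Zv X ζ u)).re - (X.Ph w T J ζ).re ≤
            -(κ' * ∑ i, u i ^ 2) := by linarith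
        calc (N : ℝ) * _ ≤ N * (-(κ' * ∑ i, u i ^ 2)) :=
              mul_le_mul_of_nonneg_left h7 (Nat.cast_nonneg _)
          _ = _ := by ring
    · rw [Set.indicator_of_notMem hu, norm_zero]
      exact mul_nonneg hB0 (Real.exp_pos _).le
  have hmeas : ∀ᶠ N : ℕ in atTop,
      AEStronglyMeasurable ((Sx X r δ N T J ζ).indicator (Gf X N w T J ζ)) volume := by
    filter_upwards [hmem, hev4, hev5] with N h1 h2 h3
    have hN1 : 1 ≤ N := (le_max_left _ _).trans h3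
    rw [ind_eq X hN1]
    refine AEStronglyMeasurable.const_mul ?_ _
    rw [aestronglyMeasurable_indicator_iff (sx_closed X r δ N T J ζ).measurableSet]
    exact (pv_cont hB w hpos hN1 h2 h1).aestronglyMeasurable (sx_closed X r δ N T J ζ).measurableSet
  -- the complex neighbourhood
  obtain ⟨y0, hy0, hy0'⟩ := pos_le_all (fun s => (ζ s).im / 2) fun s => half_pos (hpos s)
  set R : ℝ := min δ (min (r1 / 4) y0) with hR
  have hR0 : 0 < R := lt_min hδ (lt_min (by linarith) hy0)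
  have hRδ : R ≤ δ := min_le_left _ _
  have hRr : ∀ s : Fin c, R ≤ r / 4 := fun s => by
    have h1 : R ≤ r1 / 4 := (min_le_right _ _).trans (min_le_left _ _)
    rwa [hr1s s] at h1
  have hRy : R ≤ y0 := (min_le_right _ _).trans (min_le_right _ _)
  have hU : ∀ v ∈ Metric.ball (0 : X.Ix → ℂ) R, X.Rg (r / 2) (cT X T v) (cJ X J v) (cZ X ζ v) := by
    intro v hv
    rw [mem_ball_zero_iff] at hv
    refine rg_of_near hB hδ' (fun j => ?_) (fun s => ?_) (fun s => ?_)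
    · have h1 := norm_le_pi_norm v (.inl j)
      have h2 : cT X T v j - X.τ j = (T j - X.τ j) + v (.inl j) := by unfold cT; ring
      rw [h2]
      refine (norm_add_le _ _).trans ?_
      linarith [hn.1 j]
    · have h1 := cb_norm X v s
      have h2 : cJ X J v s - X.α s 1 = (J s - X.α s 1) + cb X v s := by unfold cJ; ring
      rw [h2]
      refine (norm_add_le _ _).trans_lt ?_
      linarith [hn.2.1 s, hρr s, (hB s).r0, hRr s]
    · have h1 := norm_le_pi_norm v (.inr (.inr s))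
      unfold cZ
      refine (norm_add_le _ _).trans_lt ?_
      linarith [hn.2.2 s, hρr s, (hB s).r0, hRr s]
  have hIm : ∀ v ∈ Metric.ball (0 : X.Ix → ℂ) R, ∀ s, y0 ≤ (cZ X ζ v s).im := by
    intro v hv s
    rw [mem_ball_zero_iff] at hv
    have h1 := norm_le_pi_norm v (.inr (.inr s))
    have h2 := (abs_le.1 (Complex.abs_im_le_norm (v (.inr (.inr s))))).1
    unfold cZ
    rw [Complex.add_im]
    have h3 := hy0' s
    linarith
  -- Laplace's method
  obtain ⟨η0, hη0, -, hfl⟩ := hFLAP X.Ix R κ' hR0 hκ' (qq X w T J ζ) (HH X T J ζ)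
    (qq_an hLC hX hB w fun v hv => hrr (hU v hv)) (qq_zero X w T J ζ)
    (qq_fderiv hLC hX hB hcr hrg)
    (by
      intro x hx
      have hxR : (fun i => (x i : ℂ)) ∈ Metric.ball (0 : X.Ix → ℂ) R := by
        rw [mem_ball_zero_iff, pi_norm_lt_iff hR0]
        intro i
        rw [Complex.norm_real, Real.norm_eq_abs]
        exact hx i
      have h1 := hU _ hxR
      rw [cT_real, cJ_real, cZ_real] at h1
      have h2 := hmx0 x h1
      unfold qq
      rw [cT_real, cJ_real, cZ_real, Complex.sub_re]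
      linarith)
    (by
      filter_upwards [hev4, hev5] with N h4 h5
      exact HH_cont hLC hX hB hU (fun v hv s => hy0.trans_le (hIm v hv s)) ((le_max_left _ _).trans h5) h4)
    (HH_UA hUA (fun s => hPX hLC hGAM hGX hUA (X.α s) r κ K C0 (hX.fr s) (hB s) (X.q0 s)) hB hy0 hU hIm)
  set η : ℝ := min η0 (min (δ / 4) (r1 / 16)) with hη
  have hη1 : 0 < η := lt_min hη0 (lt_min (by linarith) (by linarith))
  have hηδ : η ≤ δ / 4 := (min_le_right _ _).trans (min_le_left _ _)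
  have hηr : ∀ s : Fin c, η ≤ r / 16 := fun s => by
    have h1 : η ≤ r1 / 16 := (min_le_right _ _).trans (min_le_right _ _)
    rwa [hr1s s] at h1
  obtain ⟨y, hy⟩ := hfl η hη1 (min_le_left _ _)
  refine ⟨y, xp_add_small hy fun M => ⟨1, ?_⟩⟩
  -- the complement of the box
  set Bo : Set (X.Ix → ℝ) := {x | ∀ i, |x i| ≤ η} with hBo
  have hBom : MeasurableSet Bo := by
    have : Bo = ⋂ i, {x : X.Ix → ℝ | |x i| ≤ η} := by
      ext x
      simp [hBo]
    rw [this]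
    exact MeasurableSet.iInter fun i =>
      (isClosed_le ((continuous_apply i).abs) continuous_const).measurableSet
  set I0 : ℝ := ∫ x : X.Ix → ℝ, Real.exp (-(κ' / 2 * ∑ i, x i ^ 2)) with hI0
  have hI00 : 0 ≤ I0 := integral_nonneg fun x => (Real.exp_pos _).le
  have hsm := pow_of_exp (m := Fintype.card X.Ix) (a := κ' * η ^ 2 / 2) (A := B * I0)
    (by positivity) M
  filter_upwards [hmem, hbnd, hmeas, hev5, hev6, hev7, hsm] with N h1 h2 h3 h5 h6 h7 h8
  have hN1 : 1 ≤ N := (le_max_left _ _).trans h5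
  have hNN : N0 ≤ N := (le_max_right _ _).trans h5
  have hN1r : (1:ℝ) ≤ N := by exact_mod_cast hN1
  have hN0 : (0:ℝ) < N := by linarith
  set F : (X.Ix → ℝ) → ℂ := (Sx X r δ N T J ζ).indicator (Gf X N w T J ζ) with hF
  have hFi : Integrable F volume := by
    refine Integrable.mono' ((gauss_int (ι := X.Ix) (b := κ' * N) (by positivity)).const_mul B) h3
      (Eventually.of_forall h2)
  have hsplit : ∫ x, F x = (∫ x in Bo, F x) + ∫ x in Boᶜ, F x :=
    (integral_add_compl hBom hFi).symm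
  have hin : ∫ x in Bo, F x = ∫ x in Bo, Complex.exp (N * qq X w T J ζ fun i => (x i : ℂ)) *
      HH X T J ζ N fun i => (x i : ℂ) := by
    refine setIntegral_congr_fun hBom fun x hx => ?_
    rw [Gf_real, hF, Set.indicator_of_mem
      (box_sub hB hρδ hρr hηδ hηr hn hN1 h6 h7 hx)]
  have hout : ‖∫ x in Boᶜ, F x‖ ≤ B * Real.exp (-(κ' * η ^ 2 / 2 * N)) * I0 := by
    have hg : Integrable (fun x : X.Ix → ℝ => B * Real.exp (-(κ' * η ^ 2 / 2 * N)) *
        Real.exp (-(κ' / 2 * ∑ i, x i ^ 2))) volume :=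
      (gauss_int (ι := X.Ix) (b := κ' / 2) (by positivity)).const_mul _
    have e1 : ‖∫ x in Boᶜ, F x‖ ≤ ∫ x in Boᶜ, B * Real.exp (-(κ' * η ^ 2 / 2 * N)) *
        Real.exp (-(κ' / 2 * ∑ i, x i ^ 2)) := by
      refine norm_integral_le_of_norm_le hg.integrableOn ?_
      rw [ae_restrict_iff' hBom.compl]
      refine Eventually.of_forall fun x hx => (h2 x).trans ?_
      rw [mul_assoc B (Real.exp _) (Real.exp _), ← Real.exp_add]
      refine mul_le_mul_of_nonneg_left (Real.exp_le_exp.2 ?_) hB0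
      have hx2 : η ^ 2 ≤ ∑ i, x i ^ 2 := by
        have : ¬ ∀ i, |x i| ≤ η := hx
        push Not at this
        obtain ⟨i, hi⟩ := this
        have h9 : η ^ 2 ≤ x i ^ 2 := by
          rw [← sq_abs (x i)]
          exact pow_le_pow_left₀ hη1.le hi.le 2
        exact h9.trans (single_le_sum (f := fun i => x i ^ 2) (fun i _ => sq_nonneg _) (mem_univ i))
      set S : ℝ := ∑ i, x i ^ 2
      have hS : 0 ≤ S := (sq_nonneg η).trans hx2
      have a1 : κ' / 2 * N * η ^ 2 ≤ κ' / 2 * N * S := by gcongr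
      have a2 : κ' / 2 * S * 1 ≤ κ' / 2 * S * N := by gcongr
      linarith
    refine e1.trans ?_
    refine (setIntegral_le_integral hg (Eventually.of_forall fun x => by positivity)).trans ?_
    rw [integral_const_mul]
  have hval : ((√N : ℝ) : ℂ) ^ X.nA / ((√N : ℝ) : ℂ) ^ Fintype.card X.Ix *
      (-1) ^ (c * (N - 1)) * Complex.exp (-(N * X.Ph w T J ζ)) * (N ^ d *
      ∫ x in X.bx δ N, ∏ s, FZ r N (X.α s) (w s) (ζ s).im (J s).im
        (X.xN N (fun j => x j + (T j).im * Complex.I) s)) =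
      ((√N : ℝ) : ℂ) ^ Fintype.card X.Ix * ∫ x, F x := by
    rw [hF, int_eq haj hN1, ← hbox w (fun s => (ζ s).im) (fun s => (J s).im) (fun j => (T j).im)
      (fun s => ⟨hpos s, by
        have h1 := (le_abs_self _).trans (Complex.abs_im_le_norm (ζ s))
        linarith [hn.2.2 s], (im_le (hn.2.1 s)).trans hρτ⟩)
      (fun j => (im_le (hn.1 j)).trans hρτ) N hNN]
    have hs0 : ((√(N:ℝ) : ℝ) : ℂ) ≠ 0 := by
      exact_mod_cast (Real.sqrt_pos.2 hN0).ne'
    have hs2 : ((√(N:ℝ) : ℝ) : ℂ) ^ 2 = (N : ℂ) := by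
      have := Real.sq_sqrt hN0.le
      exact_mod_cast this
    have hN0' : (N : ℂ) ≠ 0 := by
      exact_mod_cast hN0.ne'
    have hsg : (((-1 : ℂ)) ^ (c * (N - 1)))⁻¹ = (-1) ^ (c * (N - 1)) := by
      rw [← inv_pow (-1 : ℂ)]
      norm_num
    have hsg0 : (((-1 : ℂ)) ^ (c * (N - 1))) ≠ 0 := pow_ne_zero _ (by norm_num)
    unfold cN
    rw [cst_eq, card_J]
    exact (alg1 hs0 hN0' hsg0 hsg hs2).symm
  rw [hval, hsplit, hin, mul_add, add_sub_cancel_left, norm_mul, norm_pow, Complex.norm_real,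
    Real.norm_of_nonneg (Real.sqrt_nonneg _)]
  have hs : √(N:ℝ) ≤ N := by
    rw [Real.sqrt_le_left (by linarith)]
    nlinarith
  refine le_trans ?_ h8
  calc √(N:ℝ) ^ Fintype.card X.Ix * ‖∫ x in Boᶜ, F x‖
      ≤ (N:ℝ) ^ Fintype.card X.Ix * (B * Real.exp (-(κ' * η ^ 2 / 2 * N)) * I0) :=
        mul_le_mul (pow_le_pow_left₀ (Real.sqrt_nonneg _) hs _) hout (norm_nonneg _) (by positivity)
    _ = _ := by ring

end Pool.Agent.Q176.HX
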