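import Pool.Agent.Q99.HX.Stm
import Pool.Agent.Q99.HU.Q239.LPN

/-!
# Project HX, job LPX, part 1: complex points, analyticity
-/

set_option autoImplicit false

namespace Pool.Agent.Q176.HX

open Finset Filter Topology MeasureTheory
open Pool.Agent.Q99.HT
open Pool.Agent.Q99.HU.Q239
open Pool.Agent.Q99.KN (bb ct St LC S_LC S_GAM ez kz th jN)
open Pool.Agent.Q251.KN (fz Eg)
open Pool.Agent.Q99.HX

variable {c d : ℕ}

/-- the summation indices at a complex point -/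
noncomputable def cb (X : Nw c d) (v : X.Ix → ℂ) (s : Fin c) : ℂ :=
  if h : X.α s 1 ≠ 0 then v (.inr (.inl ⟨s, h⟩)) else 0
/-- the translated complex points -/
noncomputable def cT (X : Nw c d) (T : Fin d → ℂ) (v : X.Ix → ℂ) (j : Fin d) : ℂ :=
  T j + v (.inl j)
noncomputable def cJ (X : Nw c d) (J : Fin c → ℂ) (v : X.Ix → ℂ) (s : Fin c) : ℂ :=
  J s + cb X v s
noncomputable def cZ (X : Nw c d) (ζ : Fin c → ℂ) (v : X.Ix → ℂ) (s : Fin c) : ℂ :=
  ζ s + v (.inr (.inr s))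

theorem cb_real (X : Nw c d) (v : X.Ix → ℝ) (s : Fin c) :
    cb X (fun i => (v i : ℂ)) s = (bv X v s : ℂ) := by
  unfold cb bv
  split_ifs <;> simp

theorem cT_real (X : Nw c d) (T : Fin d → ℂ) (v : X.Ix → ℝ) :
    cT X T (fun i => (v i : ℂ)) = Tv X T v := rfl

theorem cJ_real (X : Nw c d) (J : Fin c → ℂ) (v : X.Ix → ℝ) :
    cJ X J (fun i => (v i : ℂ)) = Jv X J v := by
  funext s
  unfold cJ Jv
  rw [cb_real]

theorem cZ_real (X : Nw c d) (ζ : Fin c → ℂ) (v : X.Ix → ℝ) :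
    cZ X ζ (fun i => (v i : ℂ)) = Zv X ζ v := rfl

theorem cb_norm (X : Nw c d) (v : X.Ix → ℂ) (s : Fin c) : ‖cb X v s‖ ≤ ‖v‖ := by
  unfold cb
  by_cases h : X.α s 1 ≠ 0
  · rw [dif_pos h]
    exact norm_le_pi_norm v _
  · rw [dif_neg h, norm_zero]
    exact norm_nonneg _

theorem cb_zero (X : Nw c d) (v : X.Ix → ℂ) {s : Fin c} (h : X.α s 1 = 0) : cb X v s = 0 := by
  unfold cb
  rw [dif_neg (not_not.2 h)]

theorem cb_an (X : Nw c d) (s : Fin c) (v : X.Ix → ℂ) :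
    AnalyticAt ℂ (fun v : X.Ix → ℂ => cb X v s) v := by
  by_cases h : X.α s 1 ≠ 0
  · have : (fun v : X.Ix → ℂ => cb X v s) = fun v => v (.inr (.inl ⟨s, h⟩)) := by
      funext v
      unfold cb
      rw [dif_pos h]
    rw [this]
    exact (ContinuousLinearMap.proj (R := ℂ) (φ := fun _ : X.Ix => ℂ) (.inr (.inl ⟨s, h⟩))).analyticAt v
  · have : (fun v : X.Ix → ℂ => cb X v s) = fun _ => 0 := by
      funext v
      exact cb_zero X v (not_not.1 h)
    rw [this]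
    exact analyticAt_const

theorem coord_an (X : Nw c d) (i : X.Ix) (v : X.Ix → ℂ) :
    AnalyticAt ℂ (fun v : X.Ix → ℂ => v i) v :=
  (ContinuousLinearMap.proj (R := ℂ) (φ := fun _ : X.Ix => ℂ) i).analyticAt v

theorem cZ_an (X : Nw c d) (ζ : Fin c → ℂ) (s : Fin c) (v : X.Ix → ℂ) :
    AnalyticAt ℂ (fun v : X.Ix → ℂ => cZ X ζ v s) v :=
  analyticAt_const.add (coord_an X _ v)

theorem xv_an (X : Nw c d) (T : Fin d → ℂ) (J : Fin c → ℂ) (s : Fin c) (v : X.Ix → ℂ) :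
    AnalyticAt ℂ (fun v : X.Ix → ℂ => X.v (cT X T v) (cJ X J v) s) v := by
  have hx : ∀ i, AnalyticAt ℂ (fun v : X.Ix → ℂ => X.x (cT X T v) s i) v := by
    intro i
    unfold Nw.x cT
    refine analyticAt_const.add ?_
    refine Finset.analyticAt_fun_sum _ fun j _ => ?_
    exact (analyticAt_const.add (coord_an X _ v)).mul analyticAt_const
  rw [analyticAt_pi_iff]
  intro i
  fin_cases i
  · exact hx 0
  · exact hx 1
  · exact hx 2
  · exact analyticAt_const.add (cb_an X s v)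

theorem phi_an (X : Nw c d) (T : Fin d → ℂ) (J ζ : Fin c → ℂ) (s : Fin c) (U : Set (X.Ix → ℂ)) :
    AnalyticOnNhd ℂ (fun v : X.Ix → ℂ => (X.v (cT X T v) (cJ X J v) s, cZ X ζ v s)) U :=
  fun v _ => (xv_an X T J s v).prod (cZ_an X ζ s v)

theorem St_open : IsOpen St := by
  have : St = {x : ℂ | 0 < x.re} ∩ {x : ℂ | x.re < 1} := rfl
  rw [this]
  exact (isOpen_lt continuous_const Complex.continuous_re).inter
    (isOpen_lt Complex.continuous_re continuous_const)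

theorem LC_an (hLC : S_LC) {x : ℂ} (hx : x ∈ St) : AnalyticAt ℂ LC x := by
  have h : DifferentiableOn ℂ LC St := fun y hy => (hLC.1 y hy).differentiableAt.differentiableWithinAt
  exact h.analyticAt (St_open.mem_nhds hx)

section region
variable {α : Fin 6 → ℝ} {r κ K C0 : ℝ}

theorem nz_re (ζ : ℂ) (i : Fin 6) : (nz ζ i).re = 1 / 2 + ζ.re / 2 ∨ (nz ζ i).re = 1 / 2 - ζ.re / 2 := by
  fin_cases i <;> simp [nz, s6] <;> ring_nf <;> simp

theorem nz_St (hB : Blk α r κ K C0) {ζ : ℂ} (hζ : ‖ζ‖ < r) (i : Fin 6) : nz ζ i ∈ St := by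
  have h1 := (Complex.abs_re_le_norm ζ).trans_lt hζ
  have h2 := hB.r1
  rw [abs_lt] at h1
  rcases nz_re ζ i with h | h
  · refine ⟨?_, ?_⟩ <;> rw [h] <;> linarith
  · refine ⟨?_, ?_⟩ <;> rw [h] <;> linarith

theorem nl_St (hα : Fr α) (hB : Blk α r κ K C0) {v : Fin 4 → ℂ} (hv : v ∈ Metric.closedBall (vC α) r)
    {ζ : ℂ} (hζ : ‖ζ‖ < r) {i : Fin 6} (hi : ctr α i ≠ 0) : nz ζ i - lf v i ∈ St := by
  obtain ⟨h1, h2⟩ := hB.sml i hi
  have hr := hB.r0
  have h3 : lf v i = ctr α i + lf (v - vC α) i := by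
    rw [← lf_vC hα, ← lf_add, add_sub_cancel]
  have h4 : ‖lf (v - vC α) i‖ ≤ 3 * r := by
    refine (lf_norm _ _).trans ?_
    rw [mem_closedBall_iff_norm] at hv
    linarith
  have h5 := (Complex.abs_re_le_norm (lf (v - vC α) i)).trans h4
  rw [abs_le] at h5
  have h6 : (lf v i).re = ctr α i + (lf (v - vC α) i).re := by
    rw [h3, Complex.add_re, Complex.ofReal_re]
  have h7 := (Complex.abs_re_le_norm ζ).trans_lt hζ
  rw [abs_lt] at h7
  rcases nz_re ζ i with h | h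
  · refine ⟨?_, ?_⟩ <;> rw [Complex.sub_re, h, h6] <;> linarith
  · refine ⟨?_, ?_⟩ <;> rw [Complex.sub_re, h, h6] <;> linarith

theorem lf_an (i : Fin 6) (p : (Fin 4 → ℂ) × ℂ) :
    AnalyticAt ℂ (fun p : (Fin 4 → ℂ) × ℂ => lf p.1 i) p := by
  have hc : ∀ j : Fin 4, AnalyticAt ℂ (fun p : (Fin 4 → ℂ) × ℂ => p.1 j) p := by
    intro j
    exact ((ContinuousLinearMap.proj (R := ℂ) (φ := fun _ : Fin 4 => ℂ) j).comp
      (ContinuousLinearMap.fst ℂ (Fin 4 → ℂ) ℂ)).analyticAt p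
  fin_cases i
  · exact hc 0
  · exact hc 3
  · exact (hc 0).add (hc 3)
  · exact hc 2
  · exact (hc 1).sub (hc 3)
  · exact (hc 2).add ((hc 1).sub (hc 3))

theorem nz_an (i : Fin 6) (p : (Fin 4 → ℂ) × ℂ) :
    AnalyticAt ℂ (fun p : (Fin 4 → ℂ) × ℂ => nz p.2 i) p := by
  unfold nz
  exact analyticAt_const.add ((analyticAt_const.mul analyticAt_snd).div_const)

theorem PE_an (hLC : S_LC) (hα : Fr α) (hB : Blk α r κ K C0) :
    AnalyticOnNhd ℂ (fun p : (Fin 4 → ℂ) × ℂ => PE α p.1 p.2)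
      (Metric.ball (vC α) r ×ˢ Metric.ball 0 r) := by
  rintro p ⟨h1, h2⟩
  rw [mem_ball_zero_iff] at h2
  unfold PE
  refine Finset.analyticAt_fun_sum _ fun i _ => ?_
  by_cases hi : ctr α i = 0
  · simp only [if_pos hi]
    exact analyticAt_const
  · simp only [if_neg hi]
    unfold Pool.Agent.Q99.HT.LT
    have hv := Metric.ball_subset_closedBall h1
    have g1 : AnalyticAt ℂ (fun p : (Fin 4 → ℂ) × ℂ => LC (nz p.2 i)) p :=
      AnalyticAt.fun_comp (g := LC) (f := fun p : (Fin 4 → ℂ) × ℂ => nz p.2 i)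
        (LC_an hLC (nz_St hB h2 i)) (nz_an i p)
    have g2 : AnalyticAt ℂ (fun p : (Fin 4 → ℂ) × ℂ => LC (nz p.2 i - lf p.1 i)) p :=
      AnalyticAt.fun_comp (g := LC) (f := fun p : (Fin 4 → ℂ) × ℂ => nz p.2 i - lf p.1 i)
        (LC_an hLC (nl_St hα hB hv h2 hi)) ((nz_an i p).sub (lf_an i p))
    have g3 : AnalyticAt ℂ (fun p : (Fin 4 → ℂ) × ℂ => LC (lf p.1 i)) p :=
      AnalyticAt.fun_comp (g := LC) (f := fun p : (Fin 4 → ℂ) × ℂ => lf p.1 i)
        (LC_an hLC (lf_St hα hB hv hi)) (lf_an i p)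
    exact (g1.sub g2).sub g3

end region

/-- the exponent -/
noncomputable def qq (X : Nw c d) (w : Fin c → ℤ) (T : Fin d → ℂ) (J ζ : Fin c → ℂ)
    (v : X.Ix → ℂ) : ℂ :=
  X.Ph w (cT X T v) (cJ X J v) (cZ X ζ v) - X.Ph w T J ζ

/-- the amplitude -/
noncomputable def HH (X : Nw c d) (T : Fin d → ℂ) (J ζ : Fin c → ℂ) (N : ℕ) (v : X.Ix → ℂ) : ℂ :=
  ∏ s, (fz N (cZ X ζ v s) * Am N (X.α s) (X.q0 s) (X.v (cT X T v) (cJ X J v) s) (cZ X ζ v s))

section main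
variable {X : Nw c d} {r κ K C0 : ℝ}

theorem qq_an (hLC : S_LC) (hX : X.Okb) (hB : ∀ s, Blk (X.α s) r κ K C0) (w : Fin c → ℤ)
    {T : Fin d → ℂ} {J ζ : Fin c → ℂ} {U : Set (X.Ix → ℂ)}
    (hU : ∀ v ∈ U, X.Rg r (cT X T v) (cJ X J v) (cZ X ζ v)) :
    AnalyticOnNhd ℂ (qq X w T J ζ) U := by
  intro v hv
  unfold qq Nw.Ph
  refine AnalyticAt.sub ?_ analyticAt_const
  refine Finset.analyticAt_fun_sum _ fun s _ => ?_
  have hz := cZ_an X ζ s v
  refine AnalyticAt.add (AnalyticAt.add ?_ ?_) ?_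
  · have h1 := hU v hv s
    refine AnalyticAt.fun_comp (g := fun p : (Fin 4 → ℂ) × ℂ => PE (X.α s) p.1 p.2)
      (f := fun v : X.Ix → ℂ => (X.v (cT X T v) (cJ X J v) s, cZ X ζ v s)) ?_
      (phi_an X T J ζ s Set.univ v (Set.mem_univ _))
    exact PE_an hLC (hX.fr s) (hB s) _ ⟨h1.1, mem_ball_zero_iff.2 h1.2⟩
  · exact (analyticAt_const.mul (hz.pow 2)).div_const
  · exact analyticAt_const.mul hz

theorem cT_zero (X : Nw c d) (T : Fin d → ℂ) : cT X T 0 = T := by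
  funext j
  unfold cT
  simp

theorem cb_z (X : Nw c d) (s : Fin c) : cb X 0 s = 0 := by
  unfold cb
  split_ifs <;> simp

theorem cJ_zero (X : Nw c d) (J : Fin c → ℂ) : cJ X J 0 = J := by
  funext s
  unfold cJ
  rw [cb_z, add_zero]

theorem cZ_zero (X : Nw c d) (ζ : Fin c → ℂ) : cZ X ζ 0 = ζ := by
  funext s
  unfold cZ
  simp

theorem qq_zero (X : Nw c d) (w : Fin c → ℤ) (T : Fin d → ℂ) (J ζ : Fin c → ℂ) :
    qq X w T J ζ 0 = 0 := by
  unfold qq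
  rw [cT_zero, cJ_zero, cZ_zero, sub_self]

theorem cb_smul (X : Nw c d) (t : ℂ) (u : X.Ix → ℂ) (s : Fin c) :
    cb X (t • u) s = t * cb X u s := by
  unfold cb
  by_cases h : X.α s 1 ≠ 0
  · rw [dif_pos h, dif_pos h]
    rfl
  · rw [dif_neg h, dif_neg h, mul_zero]

theorem qq_fderiv (hLC : S_LC) (hX : X.Okb) (hB : ∀ s, Blk (X.α s) r κ K C0) {w : Fin c → ℤ}
    {T : Fin d → ℂ} {J ζ : Fin c → ℂ} (hcr : X.Cr w T J ζ) (hrg : X.Rg r T J ζ) :
    fderiv ℂ (qq X w T J ζ) 0 = 0 := by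
  have h0 : X.Rg r (cT X T 0) (cJ X J 0) (cZ X ζ 0) := by
    rw [cT_zero, cJ_zero, cZ_zero]
    exact hrg
  have han : AnalyticAt ℂ (qq X w T J ζ) 0 :=
    qq_an hLC hX hB w (U := {0}) (fun v hv => by rw [Set.mem_singleton_iff.1 hv]; exact h0) 0 rfl
  have hd := han.differentiableAt.hasFDerivAt
  ext u
  have h1 : HasDerivAt (fun t : ℝ => qq X w T J ζ ((t : ℂ) • u)) (fderiv ℂ (qq X w T J ζ) 0 u) 0 := by
    have h2 : HasDerivAt (fun t : ℝ => (t : ℂ) • u) u 0 := by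
      have := (Complex.ofRealCLM.hasDerivAt (x := (0 : ℝ))).smul_const u
      simpa using this
    have h3 : HasFDerivAt (qq X w T J ζ) ((fderiv ℂ (qq X w T J ζ) 0).restrictScalars ℝ)
        (((0 : ℝ) : ℂ) • u) := by
      simpa using hd.restrictScalars ℝ
    exact h3.comp_hasDerivAt (0 : ℝ) h2
  have ht : X.Rg r (fun j => T j + ((0 : ℝ) : ℂ) * u (.inl j)) (fun s => J s + ((0 : ℝ) : ℂ) * cb X u s)
      (fun s => ζ s + ((0 : ℝ) : ℂ) * u (.inr (.inr s))) := by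
    simpa using hrg
  have h4 := (Ph_line hB w (T := T) (a := fun j => u (.inl j)) (J := J) (b := cb X u) (ζ := ζ)
    (g := fun s => u (.inr (.inr s))) (t := 0) ht 0 0 0).1
  simp only [Complex.ofReal_zero, zero_mul, add_zero] at h4
  rw [hcr.eq _ _ _ (fun s hs => cb_zero X u hs)] at h4
  have h5 : HasDerivAt (fun t : ℝ => qq X w T J ζ ((t : ℂ) • u)) 0 0 := by
    refine (h4.sub_const (X.Ph w T J ζ)).congr_of_eventuallyEq (Eventually.of_forall fun t => ?_)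
    simp only [qq]
    congr 2
    · funext s
      unfold cJ
      rw [cb_smul]
  rw [h1.unique h5]
  rfl

end main

end Pool.Agent.Q176.HX
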