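import Pool.Agent.Q176.HX.LPXA

/-!
# Project HX, job LPX, part 2: the amplitude has a uniform expansion
-/

set_option autoImplicit false

namespace Pool.Agent.Q176.HX

open Finset Filter Topology MeasureTheory
open Pool.Agent.Q99.HT
open Pool.Agent.Q99.HU.Q239
open Pool.Agent.Q99.KN (bb ct St LC S_LC S_GAM ez kz th jN)
open Pool.Agent.Q251.KN (fz Eg eg_norm sin_ne_of_im)
open Pool.Agent.Q99.HX

variable {c d : ℕ}

theorem pow_exp_tendsto (m : ℕ) {c : ℝ} (hc : 0 < c) (A : ℝ) :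
    Tendsto (fun N : ℕ => A * ((N : ℝ) ^ m * Real.exp (-(c * N)))) atTop (𝓝 0) := by
  have h1 := (Real.tendsto_pow_mul_exp_neg_atTop_nhds_zero m).comp
    ((tendsto_natCast_atTop_atTop (R := ℝ)).const_mul_atTop hc)
  have h2 := h1.const_mul (A / c ^ m)
  rw [mul_zero] at h2
  refine h2.congr fun N => ?_
  simp only [Function.comp_apply]
  rw [mul_pow]
  field_simp

/-- an exponentially small bound is smaller than all powers -/
theorem pow_of_exp {m : ℕ} {a A : ℝ} (ha : 0 < a) (K : ℕ) :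
    ∀ᶠ N : ℕ in atTop, A * ((N : ℝ) ^ m * Real.exp (-(a * N))) ≤ 1 / (N : ℝ) ^ K := by
  have h1 := (pow_exp_tendsto (m + K) ha A).eventually_le_const (u := 1) zero_lt_one
  filter_upwards [h1, eventually_ge_atTop 1] with N g1 g2
  have hNp : (0 : ℝ) < (N : ℝ) := by exact_mod_cast g2
  rw [le_div_iff₀ (by positivity)]
  calc _ = A * ((N : ℝ) ^ (m + K) * Real.exp (-(a * N))) := by rw [pow_add]; ring
    _ ≤ 1 := g1

theorem fz_diff (N : ℕ) (Z : ℂ) (hE : ‖Eg N Z‖ ≤ 1 / 2) :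
    ‖fz N Z - Real.pi / Complex.I * Complex.sin (Real.pi * Z)‖ ≤
      10 * ‖Real.pi / Complex.I * Complex.sin (Real.pi * Z)‖ * ‖Eg N Z‖ := by
  unfold fz
  generalize (Real.pi / Complex.I * Complex.sin (Real.pi * Z) : ℂ) = g
  generalize Eg N Z = E at *
  have h1 : 1 / 2 ≤ ‖1 - E‖ := by
    have := norm_sub_norm_le (1 : ℂ) E
    rw [norm_one] at this
    linarith
  have h0 : (1 - E) ≠ 0 := by
    intro h
    rw [h, norm_zero] at h1
    linarith
  have e : g / (1 - E) ^ 2 - g = g * (E * (2 - E)) / (1 - E) ^ 2 := by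
    field_simp
    ring
  rw [e, norm_div, norm_mul, norm_mul, norm_pow, div_le_iff₀ (by positivity)]
  have h2 : ‖2 - E‖ ≤ 5 / 2 := by
    have := norm_sub_le (2 : ℂ) E
    have h3 : ‖(2 : ℂ)‖ = 2 := by norm_num
    linarith
  have h3 : 1 / 4 ≤ ‖1 - E‖ ^ 2 := by nlinarith
  have hg := norm_nonneg g
  have hEn := norm_nonneg E
  have h4 : ‖g‖ * (‖E‖ * ‖2 - E‖) ≤ ‖g‖ * (‖E‖ * (5 / 2)) := by gcongr
  have h5 : 10 * ‖g‖ * ‖E‖ * (1 / 4) ≤ 10 * ‖g‖ * ‖E‖ * ‖1 - E‖ ^ 2 := by gcongr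
  linarith

theorem sin_bound : ∃ B : ℝ, ∀ Z : ℂ, ‖Z‖ ≤ 1 →
    ‖(Real.pi / Complex.I * Complex.sin (Real.pi * Z) : ℂ)‖ ≤ B := by
  have hc : Continuous fun Z : ℂ => (Real.pi / Complex.I * Complex.sin (Real.pi * Z) : ℂ) := by
    fun_prop
  obtain ⟨B, hB⟩ := (isCompact_closedBall (0 : ℂ) 1).exists_bound_of_continuousOn hc.continuousOn
  exact ⟨B, fun Z hZ => hB Z (by rwa [mem_closedBall_zero_iff])⟩

/-- the factor of the twist has a uniform expansion -/
theorem fz_UA (hUA : S_UA) (X : Nw c d) (ζ : Fin c → ℂ) (s : Fin c) (U : Set (X.Ix → ℂ)) {y : ℝ}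
    (hy : 0 < y) (h1 : ∀ v ∈ U, ‖cZ X ζ v s‖ ≤ 1) (h2 : ∀ v ∈ U, y ≤ (cZ X ζ v s).im) :
    UA (fun N v => fz N (cZ X ζ v s)) U := by
  obtain ⟨-, -, hc, hp, -⟩ := hUA
  obtain ⟨B, hB⟩ := sin_bound
  have h3 := hc (X.Ix → ℂ)
    (fun v => (Real.pi / Complex.I * Complex.sin (Real.pi * cZ X ζ v s) : ℂ)) U B
    (fun v _ => by
      have hz := cZ_an X ζ s v
      refine analyticAt_const.mul ?_
      exact AnalyticAt.fun_comp (g := Complex.sin) (f := fun v : X.Ix → ℂ => Real.pi * cZ X ζ v s)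
        (Complex.differentiable_sin.analyticAt _) (analyticAt_const.mul hz))
    (fun v hv => hB _ (h1 v hv))
  refine hp (X.Ix → ℂ) _ _ U h3 fun M => ⟨1, ?_⟩
  have hπ := Real.pi_pos
  have h4 := pow_of_exp (m := 0) (a := Real.pi * y) (A := 10 * |B|) (by positivity) M
  have h5 : ∀ᶠ N : ℕ in atTop, Real.exp (-(Real.pi * N * y)) ≤ 1 / 2 :=
    (Pool.Agent.Q251.KN.eg_tendsto hy).eventually_le_const (by norm_num)
  filter_upwards [h4, h5] with N g4 g5 v hv
  have e1 : ‖Eg N (cZ X ζ v s)‖ ≤ Real.exp (-(Real.pi * N * y)) := by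
    rw [eg_norm]
    refine Real.exp_le_exp.2 (neg_le_neg ?_)
    have := h2 v hv
    gcongr
  refine (fz_diff N _ (e1.trans g5)).trans ?_
  refine le_trans ?_ g4
  have e2 := (hB _ (h1 v hv)).trans (le_abs_self B)
  have e3 : 0 ≤ Real.exp (-(Real.pi * N * y)) := (Real.exp_pos _).le
  calc _ ≤ 10 * |B| * Real.exp (-(Real.pi * N * y)) := by gcongr
    _ = _ := by
        rw [pow_zero, one_mul]
        congr 3
        ring

/-- the amplitude has a uniform expansion -/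
theorem HH_UA {X : Nw c d} {r κ K C0 : ℝ} (hUA : S_UA)
    (hPX : ∀ s, UA (fun N (p : (Fin 4 → ℂ) × ℂ) => Am N (X.α s) (X.q0 s) p.1 p.2)
      (Metric.ball (vC (X.α s)) (r / 2) ×ˢ Metric.ball 0 (r / 2)))
    (hB : ∀ s, Blk (X.α s) r κ K C0)
    {T : Fin d → ℂ} {J ζ : Fin c → ℂ} {U : Set (X.Ix → ℂ)} {y : ℝ} (hy : 0 < y)
    (hU : ∀ v ∈ U, X.Rg (r / 2) (cT X T v) (cJ X J v) (cZ X ζ v))
    (h2 : ∀ v ∈ U, ∀ s, y ≤ (cZ X ζ v s).im) :
    UA (HH X T J ζ) U := by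
  have h5 := hUA.2.2.2.2 (X.Ix → ℂ) (Fin c) univ (fun s N v => fz N (cZ X ζ v s) *
    Am N (X.α s) (X.q0 s) (X.v (cT X T v) (cJ X J v) s) (cZ X ζ v s)) U
  refine h5 fun s _ => ?_
  refine hUA.1 (X.Ix → ℂ) _ _ U (fz_UA hUA X ζ s U hy (fun v hv => ?_) fun v hv => h2 v hv s) ?_
  · have h6 := (hU v hv s).2
    linarith [(hB s).r1]
  · exact hUA.2.1 (X.Ix → ℂ) ((Fin 4 → ℂ) × ℂ) (fun N p => Am N (X.α s) (X.q0 s) p.1 p.2)
      (fun v => (X.v (cT X T v) (cJ X J v) s, cZ X ζ v s)) U _ (hPX s) (phi_an X T J ζ s U)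
      (fun v hv => ⟨(hU v hv s).1, mem_ball_zero_iff.2 (hU v hv s).2⟩)

theorem vN_Am (X : Nw c d) (N : ℕ) (T : Fin d → ℂ) (J : Fin c → ℂ) (s : Fin c) :
    vN X N T J s = ![X.v T J s 0 - X.q0 s 0 / N, X.v T J s 1 - X.q0 s 1 / N,
      X.v T J s 2 - X.q0 s 2 / N, X.v T J s 3] := by
  have h : ∀ i, X.xN N T s i = X.x T s i - X.q0 s i / N := by
    intro i
    unfold Nw.xN Nw.x
    ring
  ext i
  fin_cases i
  · exact h 0
  · exact h 1
  · exact h 2
  · rfl

theorem Hs_eq (X : Nw c d) (N : ℕ) (T : Fin d → ℂ) (J ζ : Fin c → ℂ) (s : Fin c) :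
    Hs X N T J ζ s = fz N (ζ s) * Am N (X.α s) (X.q0 s) (X.v T J s) (ζ s) := by
  unfold Hs Rb Am
  rw [← vN_Am]
  have hP := PA_ne (α := X.α s) (vN X N T J s)
  have e1 : Complex.exp (-(N * PE (X.α s) (vN X N T J s) (ζ s))) =
      (Complex.exp (N * PE (X.α s) (vN X N T J s) (ζ s)))⁻¹ := Complex.exp_neg _
  have e2 : Complex.exp (N * (PE (X.α s) (vN X N T J s) (ζ s) - PE (X.α s) (X.v T J s) (ζ s))) =
      Complex.exp (N * PE (X.α s) (vN X N T J s) (ζ s)) * Complex.exp (-(N * PE (X.α s) (X.v T J s) (ζ s))) := by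
    rw [← Complex.exp_add]
    congr 1
    ring
  have hE1 := Complex.exp_ne_zero (N * PE (X.α s) (vN X N T J s) (ζ s))
  rw [e1, e2]
  congr 1
  generalize Complex.exp (N * PE (X.α s) (vN X N T J s) (ζ s)) = E1 at *
  generalize Complex.exp (-(N * PE (X.α s) (X.v T J s) (ζ s))) = E2 at *
  generalize PA (X.α s) (vN X N T J s) = P at *
  field_simp

theorem HH_real (X : Nw c d) (N : ℕ) (T : Fin d → ℂ) (J ζ : Fin c → ℂ) (v : X.Ix → ℝ) :
    HH X T J ζ N (fun i => (v i : ℂ)) = ∏ s, Hs X N (Tv X T v) (Jv X J v) (Zv X ζ v) s := by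
  unfold HH
  rw [cT_real, cJ_real, cZ_real]
  exact prod_congr rfl fun s _ => (Hs_eq X N _ _ _ s).symm

theorem Gf_real (X : Nw c d) (N : ℕ) (w : Fin c → ℤ) (T : Fin d → ℂ) (J ζ : Fin c → ℂ)
    (v : X.Ix → ℝ) : Complex.exp (N * qq X w T J ζ (fun i => (v i : ℂ))) *
      HH X T J ζ N (fun i => (v i : ℂ)) = Gf X N w T J ζ v := by
  unfold Gf qq
  rw [HH_real, cT_real, cJ_real, cZ_real]

/-- continuity of the amplitude -/
theorem HH_cont {X : Nw c d} {r κ K C0 : ℝ} (hLC : S_LC) (hX : X.Okb)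
    (hB : ∀ s, Blk (X.α s) r κ K C0) {T : Fin d → ℂ} {J ζ : Fin c → ℂ} {U : Set (X.Ix → ℂ)}
    (hU : ∀ v ∈ U, X.Rg (r / 2) (cT X T v) (cJ X J v) (cZ X ζ v))
    (h2 : ∀ v ∈ U, ∀ s, 0 < (cZ X ζ v s).im) {N : ℕ} (hN1 : 1 ≤ N)
    (hNq : ∀ s, ‖q4 X s‖ / N < r / 2) : ContinuousOn (HH X T J ζ N) U := by
  have hN0 : (0 : ℝ) < N := by exact_mod_cast hN1
  have hZ : ∀ s, Continuous fun v : X.Ix → ℂ => cZ X ζ v s := by
    intro s
    unfold cZ
    fun_prop
  have hV : ∀ s, Continuous fun v : X.Ix → ℂ => X.v (cT X T v) (cJ X J v) s := fun s =>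
    continuous_iff_continuousAt.2 fun v => (xv_an X T J s v).continuousAt
  have hVN : ∀ s, Continuous fun v : X.Ix → ℂ => vN X N (cT X T v) (cJ X J v) s := by
    intro s
    have : (fun v : X.Ix → ℂ => vN X N (cT X T v) (cJ X J v) s) =
        fun v => X.v (cT X T v) (cJ X J v) s + (-(1 / (N : ℂ))) • q4 X s := by
      funext v
      rw [vN_eq]
    rw [this]
    exact (hV s).add continuous_const
  unfold HH
  refine continuousOn_finsetProd _ fun s _ => ?_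
  have hr := (hB s).r0
  refine ContinuousOn.mul ?_ ?_
  · unfold fz Eg
    have := hZ s
    refine ContinuousOn.div (Continuous.continuousOn (by fun_prop)) (Continuous.continuousOn (by fun_prop))
      fun v hv => pow_ne_zero 2 ?_
    intro h
    have h3 : ‖Eg N (cZ X ζ v s)‖ = 1 := by
      have : Eg N (cZ X ζ v s) = 1 := (sub_eq_zero.1 h).symm
      rw [this, norm_one]
    rw [eg_norm] at h3
    have h4 := h2 v hv s
    have h5 : Real.exp (-(Real.pi * N * (cZ X ζ v s).im)) < 1 := by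
      rw [Real.exp_lt_one_iff]
      have := Real.pi_pos
      have : 0 < Real.pi * N * (cZ X ζ v s).im := by positivity
      linarith
    linarith
  · unfold Am
    refine ContinuousOn.mul (ContinuousOn.mul continuousOn_const ?_) ?_
    · refine ContinuousOn.comp (g := fun p : (Fin 4 → ℂ) × ℂ => PB N (X.α s) p.1 p.2)
        (f := fun v : X.Ix → ℂ => (![X.v (cT X T v) (cJ X J v) s 0 - X.q0 s 0 / N,
          X.v (cT X T v) (cJ X J v) s 1 - X.q0 s 1 / N,
          X.v (cT X T v) (cJ X J v) s 2 - X.q0 s 2 / N, X.v (cT X T v) (cJ X J v) s 3], cZ X ζ v s))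
        ((hB s).diff N hN1).continuousOn ?_ fun v hv => ?_
      · refine (Continuous.prodMk ?_ (hZ s)).continuousOn
        simp only [← vN_Am]
        exact hVN s
      · simp only [← vN_Am]
        have h1 := hU v hv
        refine Set.mk_mem_prod (vN_mem h1 (hNq s)) ?_
        rw [mem_ball_zero_iff]
        exact (h1 s).2.trans (by linarith)
    · have h3 : ContinuousOn (fun v : X.Ix → ℂ => PE (X.α s) (X.v (cT X T v) (cJ X J v) s) (cZ X ζ v s)) U := by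
        refine ContinuousOn.comp (g := fun p : (Fin 4 → ℂ) × ℂ => PE (X.α s) p.1 p.2)
          (f := fun v : X.Ix → ℂ => (X.v (cT X T v) (cJ X J v) s, cZ X ζ v s))
          (PE_an hLC (hX.fr s) (hB s)).continuousOn ((hV s).prodMk (hZ s)).continuousOn fun v hv => ?_
        have h1 := hU v hv s
        exact Set.mk_mem_prod (Metric.ball_subset_ball (by linarith) h1.1)
          (mem_ball_zero_iff.2 (h1.2.trans (by linarith)))
      exact Complex.continuous_exp.comp_continuousOn ((continuousOn_const.mul h3).neg)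

end Pool.Agent.Q176.HX
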